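import Mathlib
import Pool.Agent.H58.Muntz.Czero

/-!
# Müntz on the unit square: the conjecture holds for every exponent set of positive upper density
-/

set_option autoImplicit false

namespace Pool.Agent.Results.MP_dde81e_an.PositiveUpperDensity

open MeasureTheory Set Filter Topology

/-- The unit square `Q = [0,1]²`. -/
def Q : Set (ℝ × ℝ) := Set.Icc 0 1 ×ˢ Set.Icc 0 1

/-- `Ω` has positive upper density: `limsup #(Ω ∩ [1,N]²) / N² > 0`. -/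
def PosUpperDensity (Ω : Set (ℕ × ℕ)) : Prop :=
  ∃ δ : ℝ, 0 < δ ∧ ∃ᶠ N : ℕ in atTop,
    δ * (N : ℝ) ^ 2 ≤ ((Ω ∩ Set.Icc 1 N ×ˢ Set.Icc 1 N).ncard : ℝ)

/-- The finite linear combination `∑ c_(m,n) x^m y^n`. -/
noncomputable def comb {𝕜 : Type} [RCLike 𝕜] (c : (ℕ × ℕ) →₀ 𝕜) (z : ℝ × ℝ) : 𝕜 :=
  c.sum fun p a => a * ((z.1 ^ p.1 * z.2 ^ p.2 : ℝ) : 𝕜)

/-- The monomials with exponents in `Ω` span `L²(Q)` (scalars `𝕜`). -/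
def SpansL2 (𝕜 : Type) [RCLike 𝕜] (Ω : Set (ℕ × ℕ)) : Prop :=
  ∀ f : ℝ × ℝ → 𝕜, MemLp f 2 (volume.restrict Q) → ∀ ε : ℝ, 0 < ε →
    ∃ c : (ℕ × ℕ) →₀ 𝕜, (∀ p ∈ c.support, p ∈ Ω) ∧
      eLpNorm (fun z => f z - comb c z) 2 (volume.restrict Q) < ENNReal.ofReal ε

/-- The monomials with exponents in `Ω` span `C_0(Q)` (scalars `𝕜`). -/
def SpansC0 (𝕜 : Type) [RCLike 𝕜] (Ω : Set (ℕ × ℕ)) : Prop :=
  ∀ f : ℝ × ℝ → 𝕜, ContinuousOn f Q → (∀ z ∈ Q, z.1 = 0 ∨ z.2 = 0 → f z = 0) →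
    ∀ ε : ℝ, 0 < ε → ∃ c : (ℕ × ℕ) →₀ 𝕜, (∀ p ∈ c.support, p ∈ Ω) ∧
      ∀ z ∈ Q, ‖f z - comb c z‖ < ε

theorem box_finite (Ω : Set (ℕ × ℕ)) (N : ℕ) : (Ω ∩ Set.Icc 1 N ×ˢ Set.Icc 1 N).Finite :=
  ((Set.finite_Icc 1 N).prod (Set.finite_Icc 1 N)).subset Set.inter_subset_right

theorem hasZ (Ω : Set (ℕ × ℕ)) (δ : ℝ)
    (h : ∃ᶠ N : ℕ in atTop, δ * (N : ℝ) ^ 2 ≤ ((Ω ∩ Set.Icc 1 N ×ˢ Set.Icc 1 N).ncard : ℝ)) :
    ∃ᶠ N : ℕ in atTop, ∃ Z : Finset (ℕ × ℕ), (∀ p ∈ Z, p ∈ Ω ∧ p.1 ≤ N ∧ p.2 ≤ N) ∧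
      δ * (N : ℝ) ^ 2 ≤ Z.card := by
  refine h.mono fun N hN => ?_
  refine ⟨(box_finite Ω N).toFinset, ?_, ?_⟩
  · intro p hp
    rw [Set.Finite.mem_toFinset] at hp
    exact ⟨hp.1, hp.2.1.2, hp.2.2.2⟩
  · rwa [← Set.ncard_eq_toFinset_card _ (box_finite Ω N)]

theorem diverges (Ω : Set (ℕ × ℕ)) (hd : PosUpperDensity Ω) :
    ¬ Summable fun p : Ω => 1 / ((p.1.1 : ℝ) * (p.1.2 : ℝ)) := by
  classical
  intro hs
  obtain ⟨δ, hδ, hf⟩ := hd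
  obtain ⟨S, hS⟩ := summable_iff_vanishing_norm.1 hs (δ / 2) (by positivity)
  have hbig : ∀ᶠ N : ℕ in atTop, (S.card : ℝ) ≤ δ / 2 * (N : ℝ) ^ 2 ∧ 1 ≤ N := by
    have h1 : Tendsto (fun N : ℕ => δ / 2 * (N : ℝ) ^ 2) atTop atTop :=
      ((tendsto_pow_atTop (by norm_num)).comp tendsto_natCast_atTop_atTop).const_mul_atTop
        (by positivity)
    exact (h1.eventually_ge_atTop _).and (eventually_ge_atTop 1)
  obtain ⟨N, hN, hN1, hN2⟩ := (hf.and_eventually hbig).exists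
  -- the elements of `Ω` in the box
  set B : Finset (ℕ × ℕ) := (box_finite Ω N).toFinset with hB
  have hBm : ∀ p ∈ B, p ∈ Ω ∧ (1 ≤ p.1 ∧ p.1 ≤ N) ∧ 1 ≤ p.2 ∧ p.2 ≤ N := by
    intro p hp
    rw [hB, Set.Finite.mem_toFinset] at hp
    exact hp
  set T : Finset Ω := B.subtype (fun p => p ∈ Ω) with hT
  have hTc : T.card = B.card := by
    rw [hT, Finset.card_subtype, Finset.filter_true_of_mem fun p hp => (hBm p hp).1]
  have hBc : δ * (N : ℝ) ^ 2 ≤ B.card := by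
    rwa [hB, ← Set.ncard_eq_toFinset_card _ (box_finite Ω N)]
  have h1 := hS (T \ S) Finset.sdiff_disjoint
  have hNpos : (0 : ℝ) < N := by exact_mod_cast hN2
  have h2 : ((T \ S).card : ℝ) * (1 / (N : ℝ) ^ 2) ≤
      ∑ p ∈ T \ S, 1 / ((p.1.1 : ℝ) * (p.1.2 : ℝ)) := by
    rw [← nsmul_eq_mul]
    refine Finset.card_nsmul_le_sum _ _ _ fun p hp => ?_
    have hpB : p.1 ∈ B := Finset.mem_subtype.1 (Finset.mem_sdiff.1 hp).1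
    obtain ⟨-, ⟨h3, h4⟩, h5, h6⟩ := hBm p.1 hpB
    have h3' : (1 : ℝ) ≤ p.1.1 := by exact_mod_cast h3
    have h4' : (p.1.1 : ℝ) ≤ N := by exact_mod_cast h4
    have h5' : (1 : ℝ) ≤ p.1.2 := by exact_mod_cast h5
    have h6' : (p.1.2 : ℝ) ≤ N := by exact_mod_cast h6
    refine one_div_le_one_div_of_le (by positivity) ?_
    rw [sq]
    exact mul_le_mul h4' h6' (by positivity) (by positivity)
  have h3 : (T.card : ℝ) - S.card ≤ (T \ S).card := by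
    have := Finset.le_card_sdiff S T
    have h4 : T.card ≤ (T \ S).card + S.card := by omega
    have h5 : (T.card : ℝ) ≤ (T \ S).card + S.card := by exact_mod_cast h4
    linarith
  have h4 : δ / 2 ≤ ((T \ S).card : ℝ) * (1 / (N : ℝ) ^ 2) := by
    rw [mul_one_div, le_div_iff₀ (by positivity)]
    rw [hTc] at h3
    linarith
  have h5 : |∑ p ∈ T \ S, 1 / ((p.1.1 : ℝ) * (p.1.2 : ℝ))| < δ / 2 := by
    rw [← Real.norm_eq_abs]; exact h1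
  have h6 := (abs_lt.1 h5).2
  linarith

/-- **The Müntz conjecture on the square for exponent sets of positive upper density.** -/
theorem result (Ω : Set (ℕ × ℕ)) (hpos : ∀ p ∈ Ω, 1 ≤ p.1 ∧ 1 ≤ p.2)
    (hd : PosUpperDensity Ω) :
    (¬ Summable fun p : Ω => 1 / ((p.1.1 : ℝ) * (p.1.2 : ℝ))) ∧
      ∀ (𝕜 : Type) [RCLike 𝕜], SpansL2 𝕜 Ω ∧ SpansC0 𝕜 Ω := by
  refine ⟨diverges Ω hd, fun 𝕜 _ => ?_⟩
  obtain ⟨δ, hδ, hf⟩ := hd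
  refine ⟨?_, ?_⟩
  · intro f hfm ε hε
    exact Pool.Agent.H58.Muntz.l2_dense Ω δ hδ (hasZ Ω δ hf) f hfm ε hε
  · intro f hfc hf0 ε hε
    exact Pool.Agent.H58.Muntz.c0_dense Ω hpos δ hδ (hasZ Ω δ hf) f hfc hf0 ε hε

end Pool.Agent.Results.MP_dde81e_an.PositiveUpperDensity
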